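import Pool.Agent.H41.SS.Targets
import Pool.Agent.H97.RK.DBase

/-!
# Super strong ETH for resolution (MP_c62aed_lc), row DAL: living partial assignments, distinct
variables
-/

set_option autoImplicit false

namespace Pool.Agent.H89.SSM

open Finset Pool.Agent.H97.RK Pool.Agent.H97.RL Pool.Agent.H41.SS

/-- the clause `g` has its variables below `i` and is false under `z` -/
def Bad {n k : ℕ} (i : ℕ) (z : Fin n → Bool) (g : Fin k → Fin n × Bool) : Prop :=
  (∀ j, ((g j).1 : ℕ) < i) ∧ ∀ j, z (g j).1 ≠ (g j).2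

open Classical in
theorem card_Bad {n k i : ℕ} (hin : i ≤ n) (z : Fin n → Bool) :
    i.descFactorial k ≤ ((Om n k).filter fun g => Bad i z g).card := by
  have h1 : Fintype.card (Fin k ↪ Fin i) = i.descFactorial k := by
    rw [Fintype.card_embedding_eq, Fintype.card_fin, Fintype.card_fin]
  rw [← h1, ← card_univ]
  refine Finset.card_le_card_of_injOn
    (fun e j => (Fin.castLE hin (e j), !(z (Fin.castLE hin (e j))))) ?_ ?_
  · intro e _
    rw [mem_coe, mem_filter, mem_Om]
    refine ⟨?_, ?_, ?_⟩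
    · intro a b hab
      exact e.injective (Fin.castLE_injective hin hab)
    · intro j
      exact (e j).2
    · intro j
      change z (Fin.castLE hin (e j)) ≠ !(z (Fin.castLE hin (e j)))
      cases z (Fin.castLE hin (e j)) <;> simp
  · intro e _ e' _ h
    ext j
    have h2 := congrArg Prod.fst (congrFun h j)
    exact congrArg Fin.val (Fin.castLE_injective hin h2)

theorem descF {n k i : ℕ} (hki : k ≤ i) (hin : i ≤ n) (j : ℕ) (hj : j ≤ k) :
    ((i : ℝ) - k) ^ j * (n.descFactorial j : ℝ) ≤ (i.descFactorial j : ℝ) * ((n : ℝ) - k) ^ j := by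
  have hik : (k : ℝ) ≤ i := by exact_mod_cast hki
  have hni : (i : ℝ) ≤ n := by exact_mod_cast hin
  induction j with
  | zero => simp
  | succ j ih =>
    have hjk : (j : ℝ) ≤ k := by exact_mod_cast (Nat.le_of_succ_le hj)
    have ih' := ih (Nat.le_of_succ_le hj)
    rw [Nat.descFactorial_succ, Nat.descFactorial_succ, pow_succ, pow_succ]
    push_cast [Nat.cast_sub (show j ≤ n by omega), Nat.cast_sub (show j ≤ i by omega)]
    have h1 : ((i : ℝ) - k) * ((n : ℝ) - j) ≤ ((i : ℝ) - j) * ((n : ℝ) - k) := by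
      nlinarith
    have h2 : 0 ≤ ((i : ℝ) - k) * ((n : ℝ) - j) :=
      mul_nonneg (by linarith) (by linarith)
    have h3 : (0 : ℝ) ≤ (i.descFactorial j : ℝ) * ((n : ℝ) - k) ^ j :=
      mul_nonneg (Nat.cast_nonneg _) (pow_nonneg (by linarith) _)
    calc ((i : ℝ) - k) ^ j * ((i : ℝ) - k) * (((n : ℝ) - j) * (n.descFactorial j : ℝ))
        = (((i : ℝ) - k) ^ j * (n.descFactorial j : ℝ)) * (((i : ℝ) - k) * ((n : ℝ) - j)) := by
          ring
      _ ≤ ((i.descFactorial j : ℝ) * ((n : ℝ) - k) ^ j) *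
          (((i : ℝ) - j) * ((n : ℝ) - k)) := mul_le_mul ih' h1 h2 h3
      _ = ((i : ℝ) - j) * (i.descFactorial j : ℝ) * (((n : ℝ) - k) ^ j * ((n : ℝ) - k)) := by
          ring

open Classical in
theorem card_notBad {n k i : ℕ} (hkn : k < n) (hki : k ≤ i) (hin : i ≤ n) (z : Fin n → Bool) :
    (((Om n k).filter fun g => ¬ Bad i z g).card : ℝ) ≤
      (1 - (((i : ℝ) - k) / (2 * (n - k))) ^ k) * (Om n k).card := by
  have h4 := card_filter_add_card_filter_not (s := Om n k) (fun g => Bad i z g)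
  have h5 := card_Bad (k := k) hin z
  have h6 : (((Om n k).filter fun g => Bad i z g).card : ℝ) +
      (((Om n k).filter fun g => ¬ Bad i z g).card : ℝ) = (Om n k).card := by
    exact_mod_cast h4
  have h7 : (i.descFactorial k : ℝ) ≤ (((Om n k).filter fun g => Bad i z g).card : ℝ) := by
    exact_mod_cast h5
  have h8 : (((i : ℝ) - k) / (2 * (n - k))) ^ k * (Om n k).card ≤ i.descFactorial k := by
    have hnk : (0 : ℝ) < (n : ℝ) - k := by
      have : (k : ℝ) < n := by exact_mod_cast hkn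
      linarith
    have h9 := descF hki hin k le_rfl
    rw [card_Om]
    push_cast
    rw [div_pow, mul_pow, div_mul_eq_mul_div, div_le_iff₀ (by positivity)]
    calc ((i : ℝ) - k) ^ k * (2 ^ k * (n.descFactorial k : ℝ))
        = 2 ^ k * (((i : ℝ) - k) ^ k * (n.descFactorial k : ℝ)) := by ring
      _ ≤ 2 ^ k * ((i.descFactorial k : ℝ) * ((n : ℝ) - k) ^ k) :=
          mul_le_mul_of_nonneg_left h9 (by positivity)
      _ = (i.descFactorial k : ℝ) * (2 ^ k * ((n : ℝ) - k) ^ k) := by ring
  rw [sub_mul, one_mul]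
  linarith

open Classical in
theorem card_Z {n i : ℕ} (hin : i ≤ n) :
    (univ.filter fun z : Fin n → Bool => ∀ v : Fin n, i ≤ v.1 → z v = false).card ≤ 2 ^ i := by
  have h1 : Fintype.card (Fin i → Bool) = 2 ^ i := by
    rw [Fintype.card_fun, Fintype.card_bool, Fintype.card_fin]
  rw [← h1, ← card_univ]
  refine Finset.card_le_card_of_injOn (fun z w => z (Fin.castLE hin w)) ?_ ?_
  · intro z _
    exact mem_coe.2 (mem_univ _)
  · intro z hz z' hz' h
    rw [mem_coe, mem_filter] at hz hz'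
    funext v
    by_cases hv : i ≤ v.1
    · rw [hz.2 v hv, hz'.2 v hv]
    · have := congrFun h ⟨v.1, by omega⟩
      exact this

/-- (DAL) the number of the living partial assignments, distinct variables. -/
theorem pf_DAL : T_DAL := by
  classical
  intro n k m i hkn hki hin
  have hnk : (0 : ℝ) < (n : ℝ) - k := by
    have : (k : ℝ) < n := by exact_mod_cast hkn
    linarith
  have hik : (0 : ℝ) ≤ (i : ℝ) - k := by
    have : (k : ℝ) ≤ i := by exact_mod_cast hki
    linarith
  have hni : (i : ℝ) ≤ n := by exact_mod_cast hin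
  have hq0 : 0 ≤ ((i : ℝ) - k) / (2 * (n - k)) := by positivity
  have hq1 : ((i : ℝ) - k) / (2 * (n - k)) ≤ 1 := by
    rw [div_le_one (by positivity)]
    linarith
  have hqk : 0 ≤ 1 - (((i : ℝ) - k) / (2 * (n - k))) ^ k := by
    have := pow_le_one₀ (n := k) hq0 hq1
    linarith
  have hD : (univ.filter fun F : Fml n k m => Dist F) =
      Fintype.piFinset fun _ : Fin m => Om n k := by
    ext F
    rw [mem_filter, Fintype.mem_piFinset]
    exact ⟨fun h c => mem_Om.2 (h.2 c), fun h => ⟨mem_univ _, fun c => mem_Om.1 (h c)⟩⟩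
  set Z : Finset (Fin n → Bool) :=
    univ.filter fun z : Fin n → Bool => ∀ v : Fin n, i ≤ v.1 → z v = false with hZdef
  have hAlv : ∀ F : Fml n k m, ((Alv F i).card : ℝ) =
      ∑ z ∈ Z, if ∀ c, ¬ Bad i z (F c) then (1 : ℝ) else 0 := by
    intro F
    have e : Alv F i = Z.filter fun z => ∀ c, ¬ Bad i z (F c) := by
      ext z
      unfold Alv
      rw [mem_filter, mem_filter, hZdef, mem_filter]
      exact ⟨fun h => ⟨⟨mem_univ _, h.2.1⟩, h.2.2⟩, fun h => ⟨mem_univ _, h.1.2, h.2⟩⟩
    rw [e, card_filter]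
    push_cast
    rfl
  simp_rw [hAlv]
  rw [sum_comm]
  have hz : ∀ z ∈ Z, (∑ F ∈ univ.filter fun F : Fml n k m => Dist F,
      if ∀ c, ¬ Bad i z (F c) then (1 : ℝ) else 0) ≤
      ((1 - (((i : ℝ) - k) / (2 * (n - k))) ^ k) * (Om n k).card) ^ m := by
    intro z _
    have e1 : (∑ F ∈ univ.filter fun F : Fml n k m => Dist F,
        if ∀ c, ¬ Bad i z (F c) then (1 : ℝ) else 0) =
        (((univ.filter fun F : Fml n k m => Dist F).filter
          fun F => ∀ c, ¬ Bad i z (F c)).card : ℝ) := by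
      rw [card_filter]
      push_cast
      rfl
    have e2 : ((univ.filter fun F : Fml n k m => Dist F).filter
        fun F => ∀ c, ¬ Bad i z (F c)) =
        Fintype.piFinset fun _ : Fin m => (Om n k).filter fun g => ¬ Bad i z g := by
      rw [hD]
      ext F
      rw [mem_filter, Fintype.mem_piFinset, Fintype.mem_piFinset]
      exact ⟨fun h c => mem_filter.2 ⟨h.1 c, h.2 c⟩,
        fun h => ⟨fun c => (mem_filter.1 (h c)).1, fun c => (mem_filter.1 (h c)).2⟩⟩
    rw [e1, e2, Fintype.card_piFinset_const, Nat.cast_pow]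
    exact pow_le_pow_left₀ (Nat.cast_nonneg _) (card_notBad hkn hki hin z) m
  refine (sum_le_sum hz).trans ?_
  rw [sum_const, nsmul_eq_mul, hD, Fintype.card_piFinset_const, Nat.cast_pow, mul_pow,
    ← mul_assoc]
  have hZc : (Z.card : ℝ) ≤ 2 ^ i := by
    exact_mod_cast card_Z hin
  exact mul_le_mul_of_nonneg_right
    (mul_le_mul_of_nonneg_right hZc (pow_nonneg hqk m)) (by positivity)

end Pool.Agent.H89.SSM
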